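import Pool.Agent.helper13.U4B.Fin

/-!
# Ulam sequences `U(4, v)`, `v ≡ 3 mod 4`, `v + 1` not a power of `2`
-/

set_option autoImplicit false

namespace Pool.Agent.Results.MP_62ffdf_lc.FourThreeModFour

open Pool.Agent.UL

/-- Let `v ≡ 3 mod 4` and let `v + 1` not be a power of `2`. The Ulam sequence `U(4, v)` exists (and is unique), its
even terms are exactly `4`, `2 v + 4`, `4 v + 4`, its gaps are eventually periodic, the theory of
`(ℕ, +, U(4, v))` is NIP and `(ℕ, +, U(4, v))` does not interpret `(ℕ, +, ×)`. -/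
theorem result (v : ℕ) (h4 : v % 4 = 3) (hv : ∀ j, v + 1 ≠ 2 ^ j) :
    ∃ u : ℕ → ℕ, IsUlam 4 v u ∧ (∀ w, IsUlam 4 v w → w = u) ∧
      (∀ x, (∃ n, u n = x) ∧ Even x ↔ x = 4 ∨ x = 2 * v + 4 ∨ x = 4 * v + 4) ∧
      (∃ K Q, 0 < Q ∧ ∀ n, K ≤ n → u (n + Q + 1) - u (n + Q) = u (n + 1) - u n) ∧
      NIP LU (@FirstOrder.Language.completeTheory LU ℕ (uStr (Set.range u))) ∧
      ¬@IntArith LU ℕ (uStr (Set.range u)) := by
  obtain ⟨u, hu, huniq, hev, hgap, hup⟩ := Pool.Agent.U4B.FIN_four v h4 hv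
  exact ⟨u, hu, huniq, hev, hgap, (asmNFN _ hup).1, (asmNFN _ hup).2⟩

end Pool.Agent.Results.MP_62ffdf_lc.FourThreeModFour
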