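import Pool.Agent.helper7.UL.Asm2
import Pool.Agent.helper7.UL.K7
import Pool.Agent.helper7.UL.K9
import Pool.Agent.helper7.UL.K11
import Pool.Agent.helper7.UL.K13
import Pool.Agent.helper7.UL.K15

/-!
# Ulam sequences `U(a, b)`, `a = 7, 9, 11, 13, 15`, `b` even
-/

set_option autoImplicit false

namespace Pool.Agent.Results.MP_62ffdf_lc.OddEvenLarge

open Pool.Agent.UL

/-- Let `a` be one of `7, 9, 11, 13, 15` and `b ≥ 2000` even and coprime to `a`. The Ulam sequence `U(a, b)`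
exists (and is unique), its even terms are the `b + 2 k a`, `0 ≤ k ≤ b / 2`, and `(2 b + 4) a` (so there are
exactly `b / 2 + 2` of them), its gaps are eventually periodic, the theory of `(ℕ, +, U(a, b))` is NIP and
`(ℕ, +, U(a, b))` does not interpret `(ℕ, +, ×)`. -/
theorem result (a b : ℕ) (ha : a = 7 ∨ a = 9 ∨ a = 11 ∨ a = 13 ∨ a = 15) (hb : Even b)
    (hb' : 2000 ≤ b) (hab : Nat.Coprime a b) :
    ∃ u : ℕ → ℕ, IsUlam a b u ∧ (∀ v, IsUlam a b v → v = u) ∧
      (∀ x, (∃ n, u n = x) ∧ Even x ↔ (∃ k ≤ b / 2, x = b + 2 * k * a) ∨ x = (2 * b + 4) * a) ∧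
      {x | (∃ n, u n = x) ∧ Even x}.ncard = b / 2 + 2 ∧
      (∃ K Q, 0 < Q ∧ ∀ n, K ≤ n → u (n + Q + 1) - u (n + Q) = u (n + 1) - u n) ∧
      NIP LU (@FirstOrder.Language.completeTheory LU ℕ (uStr (Set.range u))) ∧
      ¬@IntArith LU ℕ (uStr (Set.range u)) := by
  obtain ⟨h, rfl⟩ := hb.two_dvd
  have hcop : Nat.Coprime a h := Nat.Coprime.coprime_mul_left_right hab
  have h2 : 2 * h / 2 = h := by omega
  have key : ∃ R X S P N, chk R a X S P N = true ∧ R ≤ 174 := by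
    rcases ha with rfl | rfl | rfl | rfl | rfl
    · exact ⟨_, _, _, _, _, K7, by norm_num⟩
    · exact ⟨_, _, _, _, _, K9, by norm_num⟩
    · exact ⟨_, _, _, _, _, K11, by norm_num⟩
    · exact ⟨_, _, _, _, _, K13, by norm_num⟩
    · exact ⟨_, _, _, _, _, K15, by norm_num⟩
  obtain ⟨R, X, S, P, N, hchk, hR⟩ := key
  obtain ⟨u, K, Q, D, hu, huniq, hmono, hev, hcard, hQ, hD, hgap, hup⟩ :=
    asmMain R a X S P N h hchk (by omega) (by omega) hcop
  refine ⟨u, hu, huniq, ?_, by rw [h2]; exact hcard, ⟨K, Q, hQ, ?_⟩, (asmNFN _ hup).1, (asmNFN _ hup).2⟩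
  · intro x
    rw [hev, h2]
    have : (4 * h + 4) * a = (2 * (2 * h) + 4) * a := by ring
    rw [this]
  · intro n hn
    have e1 : u (n + Q + 1) = u (n + 1) + D := by
      rw [Nat.add_right_comm]
      exact hgap (n + 1) (by omega)
    rw [e1, hgap n hn]
    omega

end Pool.Agent.Results.MP_62ffdf_lc.OddEvenLarge
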